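import Pool.Agent.H92.EHD.TP

/-! Row EG2 of the board ehd_modules. -/

set_option autoImplicit false

namespace Pool.Agent.H20.EHD

open scoped BigOperators ComplexConjugate ContDiff ComplexOrder
open MeasureTheory Pool.Agent.H92.EQ Pool.Agent.H92.EHD

/-- The zero set of a polynomial is a null set (as in `Pool.Agent.H14.UDB.GNR`). -/
theorem ae_fin : ∀ (n : ℕ) (p : MvPolynomial (Fin n) ℂ), p ≠ 0 →
    ∀ᵐ x : Fin n → ℂ, MvPolynomial.eval x p ≠ 0 := by
  intro n
  induction n with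
  | zero =>
    intro p hp
    refine Filter.Eventually.of_forall fun x hx => hp ?_
    have h1 := MvPolynomial.eq_C_of_isEmpty p
    rw [h1, MvPolynomial.eval_C] at hx
    rw [h1, hx, map_zero]
  | succ n ih =>
    intro p hp
    set f := MvPolynomial.finSuccEquiv ℂ n p with hf
    have hf0 : f ≠ 0 := by
      rw [hf]
      exact (MvPolynomial.finSuccEquiv ℂ n).map_ne_zero_iff.2 hp
    have h1 := ih f.leadingCoeff (Polynomial.leadingCoeff_ne_zero.2 hf0)
    have h2 : ∀ᵐ x : Fin n → ℂ, ∀ᵐ y : ℂ, MvPolynomial.eval (Fin.cons y x : Fin (n + 1) → ℂ) p ≠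
        0 := by
      filter_upwards [h1] with x hx
      have h3 : Polynomial.map (MvPolynomial.eval x) f ≠ 0 := by
        intro h
        apply hx
        have h4 := congrArg (fun q => Polynomial.coeff q f.natDegree) h
        simp only [Polynomial.coeff_map, Polynomial.coeff_zero] at h4
        exact h4
      have h5 : {y : ℂ | MvPolynomial.eval (Fin.cons y x : Fin (n + 1) → ℂ) p = 0}.Finite := by
        refine (Polynomial.rootSet_finite (Polynomial.map (MvPolynomial.eval x) f) ℂ).subset ?_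
        intro y hy
        rw [Polynomial.mem_rootSet]
        refine ⟨h3, ?_⟩
        rw [Polynomial.coe_aeval_eq_eval, ← MvPolynomial.eval_eq_eval_mv_eval']
        exact hy
      rw [ae_iff]
      simp only [ne_eq, not_not]
      exact h5.measure_zero _
    have hm : MeasurableSet {q : ℂ × (Fin n → ℂ) |
        MvPolynomial.eval (Fin.cons q.1 q.2 : Fin (n + 1) → ℂ) p = 0} := by
      have hc : Continuous fun q : ℂ × (Fin n → ℂ) =>
          MvPolynomial.eval (Fin.cons q.1 q.2 : Fin (n + 1) → ℂ) p :=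
        (MvPolynomial.continuous_eval p).comp (by fun_prop)
      exact (isClosed_eq hc continuous_const).measurableSet
    have h3 : ∀ᵐ q : ℂ × (Fin n → ℂ),
        MvPolynomial.eval (Fin.cons q.1 q.2 : Fin (n + 1) → ℂ) p ≠ 0 := by
      have h4 : ∀ᵐ q : (Fin n → ℂ) × ℂ,
          MvPolynomial.eval (Fin.cons q.2 q.1 : Fin (n + 1) → ℂ) p ≠ 0 := by
        refine (Measure.ae_prod_iff_ae_ae ?_).2 h2
        exact (hm.preimage measurable_swap).compl
      exact (Measure.measurePreserving_swap (μ := (volume : Measure ℂ))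
        (ν := (volume : Measure (Fin n → ℂ)))).quasiMeasurePreserving.ae h4
    have h4 := (volume_preserving_piFinSuccAbove (fun _ : Fin (n + 1) => ℂ)
      0).quasiMeasurePreserving.ae h3
    filter_upwards [h4] with x hx
    have h5 : (Fin.cons (x 0) (fun i => x (Fin.succ i)) : Fin (n + 1) → ℂ) = x :=
      Fin.cons_self_tail x
    have h6 : MvPolynomial.eval (Fin.cons (x 0) (fun i => x (Fin.succ i)) :
      Fin (n + 1) → ℂ) p ≠ 0 := hx
    rwa [h5] at h6

theorem eval_smul_hom {N D : ℕ} {φ : MvPolynomial (Fin N) ℂ} (h : φ.IsHomogeneous D) (l : ℂ)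
    (z : Fin N → ℂ) : MvPolynomial.eval (l • z) φ = l ^ D * MvPolynomial.eval z φ := by
  rw [MvPolynomial.eval_eq', MvPolynomial.eval_eq', Finset.mul_sum]
  refine Finset.sum_congr rfl fun d hd => ?_
  have h1 : d.degree = D := by
    by_contra h0
    exact (MvPolynomial.mem_support_iff.mp hd) (h.coeff_eq_zero h0)
  have h2 : ∑ i, d i = D := by
    rw [← h1, Finsupp.degree_eq_sum]
  have h3 : ∏ i, (l • z) i ^ d i = l ^ D * ∏ i, z i ^ d i := by
    simp only [Pi.smul_apply, smul_eq_mul, mul_pow, Finset.prod_mul_distrib]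
    rw [Finset.prod_pow_eq_pow_sum, h2]
  rw [h3]
  ring

/-- The polynomial `P(c, ·)`. -/
noncomputable def Rc {k : ℕ} (P : MvPolynomial (Fin (k + 1)) ℂ) (c : ℂ) :
    MvPolynomial (Fin k) ℂ :=
  (MvPolynomial.finSuccEquiv ℂ k P).eval (MvPolynomial.C c)

/-- The polynomial `P(·, w)`. -/
noncomputable def Qw {k : ℕ} (P : MvPolynomial (Fin (k + 1)) ℂ) (w : Fin k → ℂ) :
    Polynomial ℂ :=
  (MvPolynomial.finSuccEquiv ℂ k P).map (MvPolynomial.eval w)

theorem eval_Qw {k : ℕ} (P : MvPolynomial (Fin (k + 1)) ℂ) (w : Fin k → ℂ) (c : ℂ) :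
    (Qw P w).eval c = MvPolynomial.eval (ct c w) P := by
  unfold Qw ct
  rw [MvPolynomial.eval_eq_eval_mv_eval']

theorem eval_Rc {k : ℕ} (P : MvPolynomial (Fin (k + 1)) ℂ) (w : Fin k → ℂ) (c : ℂ) :
    MvPolynomial.eval w (Rc P c) = MvPolynomial.eval (ct c w) P := by
  rw [← eval_Qw]
  unfold Qw Rc
  rw [Polynomial.eval_map, ← Polynomial.eval₂_at_apply, MvPolynomial.eval_C]

theorem Rc_zero_ne {k : ℕ} (P : MvPolynomial (Fin (k + 1)) ℂ)
    (hX : ¬ MvPolynomial.X 0 ∣ P) : Rc P 0 ≠ 0 := by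
  intro h
  apply hX
  unfold Rc at h
  rw [map_zero, ← Polynomial.coeff_zero_eq_eval_zero, ← Polynomial.X_dvd_iff,
    ← MvPolynomial.finSuccEquiv_X_zero] at h
  exact (map_dvd_iff (MvPolynomial.finSuccEquiv ℂ k)).mp h

theorem continuous_ct {k : ℕ} (P : MvPolynomial (Fin (k + 1)) ℂ) :
    Continuous fun q : ℂ × (Fin k → ℂ) => MvPolynomial.eval (ct q.1 q.2) P := by
  unfold ct
  exact (MvPolynomial.continuous_eval P).comp (by fun_prop)

theorem ct_smul {k : ℕ} (l c : ℂ) (w : Fin k → ℂ) : ct (l * c) (l • w) = l • ct c w := by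
  funext i
  refine Fin.cases ?_ (fun j => ?_) i
  · simp [ct]
  · simp [ct]

theorem Rc_ne {k M : ℕ} (P : MvPolynomial (Fin (k + 1)) ℂ) (hP : P.IsHomogeneous M)
    (hX : ¬ MvPolynomial.X 0 ∣ P) (c : ℂ) : Rc P c ≠ 0 := by
  intro h
  have h1 : ∀ w, MvPolynomial.eval (ct c w) P = 0 := by
    intro w
    rw [← eval_Rc, h, map_zero]
  apply Rc_zero_ne P hX
  apply MvPolynomial.funext
  intro w
  rw [eval_Rc, map_zero]
  have hc : Continuous fun t : ℂ => MvPolynomial.eval (ct (t * c) w) P :=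
    (continuous_ct P).comp (f := fun t : ℂ => (t * c, w)) (by fun_prop)
  have h2 := Continuous.ext_on (dense_compl_singleton (0 : ℂ)) hc
    (continuous_const (y := (0 : ℂ))) (by
      intro t ht
      have ht0 : t ≠ 0 := ht
      have h3 : ct (t * c) w = t • ct c (t⁻¹ • w) := by
        rw [← ct_smul, smul_smul, mul_inv_cancel₀ ht0, one_smul]
      show MvPolynomial.eval (ct (t * c) w) P = 0
      rw [h3, eval_smul_hom hP, h1, mul_zero])
  have h4 := congrFun h2 0
  simp only [zero_mul] at h4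
  exact h4

theorem nsq_smul {k : ℕ} (u : ℂ) (hu : ‖u‖ = 1) (w : Fin k → ℂ) : nsq (u • w) = nsq w := by
  unfold nsq
  refine Finset.sum_congr rfl fun i _ => ?_
  rw [Pi.smul_apply, smul_eq_mul, norm_mul, hu, one_mul]

theorem mp_smul {k : ℕ} (u : ℂ) (hu : ‖u‖ = 1) :
    MeasurePreserving (fun w : Fin k → ℂ => u • w) := by
  have h1 : MeasurePreserving (fun z : ℂ => u * z) := by
    have h3 : u ∈ Submonoid.unitSphere ℂ := by
      have h4 : u ∈ Metric.sphere (0 : ℂ) 1 := mem_sphere_zero_iff_norm.mpr hu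
      exact h4
    have h2 := (rotation (⟨u, h3⟩ : Circle)).measurePreserving
    exact h2
  exact volume_preserving_pi (fun _ : Fin k => h1)

/-- The integrand. -/
noncomputable def FF {k : ℕ} (P : MvPolynomial (Fin (k + 1)) ℂ) (c : ℂ) (w : Fin k → ℂ) : ℝ :=
  Real.exp (-nsq w) * Real.log ‖MvPolynomial.eval (ct c w) P‖

theorem F_inv {k M : ℕ} (P : MvPolynomial (Fin (k + 1)) ℂ) (hP : P.IsHomogeneous M)
    (u c : ℂ) (hu : ‖u‖ = 1) (w : Fin k → ℂ) : FF P (u * c) (u • w) = FF P c w := by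
  unfold FF
  rw [nsq_smul u hu, ct_smul, eval_smul_hom hP, norm_mul, norm_pow, hu, one_pow, one_mul]

theorem F_rot {k M : ℕ} (P : MvPolynomial (Fin (k + 1)) ℂ) (hP : P.IsHomogeneous M)
    (u c : ℂ) (hu : ‖u‖ = 1) (g : ℝ → ℝ) : ∫ w, g (FF P (u * c) w) = ∫ w, g (FF P c w) := by
  have hm := mp_smul (k := k) u hu
  have hem : MeasurableEmbedding (fun w : Fin k → ℂ => u • w) := by
    have hne : u ≠ 0 := by
      intro h
      rw [h, norm_zero] at hu
      exact zero_ne_one hu
    exact (MeasurableEquiv.smul₀ u hne).measurableEmbedding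
  rw [← hm.integral_comp hem]
  exact integral_congr_ae (Filter.Eventually.of_forall fun w =>
    congrArg g (F_inv P hP u c hu w))

theorem F_int (h0 : T_EG0) {k M : ℕ} (P : MvPolynomial (Fin (k + 1)) ℂ)
    (hP : P.IsHomogeneous M) (hX : ¬ MvPolynomial.X 0 ∣ P) (c : ℂ) : Integrable (FF P c) := by
  have h2 := h0 k (Rc P c) (Rc_ne P hP hX c)
  refine h2.congr (Filter.Eventually.of_forall fun w => ?_)
  simp only [FF, eval_Rc]

theorem F_meas {k : ℕ} (P : MvPolynomial (Fin (k + 1)) ℂ) (g : ℝ → ℂ) (hg : Continuous g) :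
    Measurable (Function.uncurry fun (θ : ℝ) (w : Fin k → ℂ) => FF P (g θ) w) := by
  have hc1 : Continuous fun q : ℝ × (Fin k → ℂ) => Real.exp (-nsq q.2) := by
    unfold nsq
    fun_prop
  have hc2 : Continuous fun q : ℝ × (Fin k → ℂ) => MvPolynomial.eval (ct (g q.1) q.2) P :=
    (continuous_ct P).comp (f := fun q : ℝ × (Fin k → ℂ) => (g q.1, q.2)) (by fun_prop)
  exact hc1.measurable.mul (Real.measurable_log.comp hc2.norm.measurable)

theorem F_prod (h0 : T_EG0) {k M : ℕ} (P : MvPolynomial (Fin (k + 1)) ℂ)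
    (hP : P.IsHomogeneous M) (hX : ¬ MvPolynomial.X 0 ∣ P) (c : ℂ) (e : ℝ → ℂ)
    (he : Continuous e) (hen : ∀ θ, ‖e θ‖ = 1) (μ : Measure ℝ) [IsFiniteMeasure μ] :
    Integrable (Function.uncurry fun (θ : ℝ) (w : Fin k → ℂ) => FF P (e θ * c) w)
      (μ.prod volume) := by
  have hmeas := F_meas P (fun θ => e θ * c) (he.mul continuous_const)
  rw [integrable_prod_iff hmeas.aestronglyMeasurable]
  refine ⟨Filter.Eventually.of_forall fun θ => F_int h0 P hP hX (e θ * c), ?_⟩
  have h2 : (fun θ : ℝ => ∫ w, ‖Function.uncurry (fun (θ : ℝ) (w : Fin k → ℂ) =>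
      FF P (e θ * c) w) (θ, w)‖) = fun _ => ∫ w, ‖FF P c w‖ := by
    funext θ
    exact F_rot P hP (e θ) c (hen θ) (fun x => ‖x‖)
  rw [h2]
  exact integrable_const _

theorem F_jen (h0 : T_EG0) (h1 : T_EG1) {k M : ℕ} (P : MvPolynomial (Fin (k + 1)) ℂ)
    (hP : P.IsHomogeneous M) (hX : ¬ MvPolynomial.X 0 ∣ P) (c : ℂ) :
    ∫ w, FF P 0 w ≤ ∫ w, FF P c w := by
  have hpi : (0 : ℝ) ≤ 2 * Real.pi := by positivity
  have hec : Continuous fun θ : ℝ => Complex.exp (θ * Complex.I) := by fun_prop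
  have hprod := F_prod h0 P hP hX c (fun θ : ℝ => Complex.exp (θ * Complex.I)) hec
    (fun θ => Complex.norm_exp_ofReal_mul_I θ) (volume.restrict (Set.Ioc 0 (2 * Real.pi)))
  have hswap := integral_integral_swap hprod
  have hleft : ∫ θ in Set.Ioc 0 (2 * Real.pi), ∫ w, FF P (Complex.exp (θ * Complex.I) * c) w =
      2 * Real.pi * ∫ w, FF P c w := by
    have h3 : (fun θ : ℝ => ∫ w, FF P (Complex.exp (θ * Complex.I) * c) w) =
        fun _ => ∫ w, FF P c w := by
      funext θ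
      exact F_rot P hP (Complex.exp (θ * Complex.I)) c (Complex.norm_exp_ofReal_mul_I θ)
        (fun x => x)
    rw [h3, setIntegral_const, Real.volume_real_Ioc_of_le hpi, sub_zero, smul_eq_mul]
  have hright : 2 * Real.pi * ∫ w, FF P 0 w ≤
      ∫ w, ∫ θ in Set.Ioc 0 (2 * Real.pi), FF P (Complex.exp (θ * Complex.I) * c) w := by
    rw [← integral_const_mul]
    refine integral_mono_ae ((F_int h0 P hP hX 0).const_mul _) hprod.integral_prod_right ?_
    filter_upwards [ae_fin k (Rc P 0) (Rc_zero_ne P hX)] with w hw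
    rw [eval_Rc] at hw
    have h3 := (h1 (Qw P w) (by rw [eval_Qw]; exact hw) c).2
    simp only [eval_Qw] at h3
    have h4 : ∫ θ in Set.Ioc 0 (2 * Real.pi), FF P (Complex.exp (θ * Complex.I) * c) w =
        Real.exp (-nsq w) * ∫ θ in (0 : ℝ)..(2 * Real.pi),
          Real.log ‖MvPolynomial.eval (ct (Complex.exp (θ * Complex.I) * c) w) P‖ := by
      rw [intervalIntegral.integral_of_le hpi, ← integral_const_mul]
      rfl
    have h5 : 2 * Real.pi * FF P 0 w =
        Real.exp (-nsq w) * (2 * Real.pi * Real.log ‖MvPolynomial.eval (ct 0 w) P‖) := by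
      unfold FF
      ring
    show 2 * Real.pi * FF P 0 w ≤ ∫ θ in Set.Ioc 0 (2 * Real.pi),
      FF P (Complex.exp (θ * Complex.I) * c) w
    rw [h4, h5]
    exact mul_le_mul_of_nonneg_left h3 (Real.exp_pos _).le
  rw [← hswap, hleft] at hright
  exact le_of_mul_le_mul_left hright (by positivity)

theorem pf_EG2 (h0 : T_EG0) (h1 : T_EG1) : T_EG2 := by
  intro k M P hP hX
  refine ⟨-∫ w, FF P 0 w, fun c => ⟨F_int h0 P hP hX c, ?_⟩⟩
  rw [neg_neg]
  exact F_jen h0 h1 P hP hX c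

end Pool.Agent.H20.EHD
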