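import Pool.Agent.H20.EHD.EG2
import Pool.Agent.H26.EHD.EA4
import Pool.Agent.H95.EHD.EG0

/-! Row EPG of the board ehd_modules. -/

set_option autoImplicit false

namespace Pool.Agent.H20.EHD

open scoped BigOperators ComplexConjugate ContDiff ComplexOrder
open MeasureTheory Pool.Agent.H92.EQ Pool.Agent.H92.EHD

/-! ### The outer integral -/

theorem scaleC (δ : ℝ) (hδ : 0 < δ) (F : ℂ → ENNReal) (hF : Measurable F) :
    ∫⁻ c, F c = ENNReal.ofReal (δ ^ 2) * ∫⁻ c, F (δ • c) := by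
  have h1 := Measure.map_addHaar_smul (volume : Measure ℂ) hδ.ne'
  rw [Complex.finrank_real_complex, abs_of_pos (by positivity)] at h1
  have h2 : ∫⁻ c, F (δ • c) = ENNReal.ofReal (δ ^ 2)⁻¹ * ∫⁻ c, F c := by
    have h3 : ∫⁻ c, F (δ • c) = ∫⁻ c, F c ∂(Measure.map (fun x : ℂ => δ • x) volume) :=
      (lintegral_map hF (measurable_const_smul δ)).symm
    rw [h3, h1, lintegral_smul_measure]
    rfl
  rw [h2, ← mul_assoc, ← ENNReal.ofReal_mul (by positivity), mul_inv_cancel₀ (by positivity),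
    ENNReal.ofReal_one, one_mul]

theorem one_add_log_le (y : ℝ) (hy : 1 ≤ y) : 1 + Real.log y ≤ 2 * Real.sqrt y := by
  have h0 : 0 < Real.sqrt y := Real.sqrt_pos.mpr (by linarith)
  have h1 := Real.log_le_sub_one_of_pos h0
  have h2 : Real.log y = 2 * Real.log (Real.sqrt y) := by
    rw [Real.log_sqrt (by linarith)]
    ring
  rw [h2]
  linarith

theorem out_pt (y : ℝ) (hy : 1 ≤ y) :
    (1 + Real.log y) / y ^ 2 ≤ 2 * y ^ (-(3 : ℝ) / 2) := by
  have hy0 : 0 < y := by linarith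
  have h1 : y ^ (-(3 : ℝ) / 2) = Real.sqrt y / y ^ 2 := by
    rw [Real.sqrt_eq_rpow, ← Real.rpow_natCast y 2, ← Real.rpow_sub hy0]
    norm_num
  rw [h1, ← mul_div_assoc]
  exact div_le_div_of_nonneg_right (one_add_log_le y hy) (by positivity)

theorem outer_int : ∃ K : ℝ, 0 ≤ K ∧ ∀ δ : ℝ, 0 < δ → δ ≤ 1 →
    ∫⁻ c : ℂ, ENNReal.ofReal (δ ^ 2 / (‖c‖ ^ 2 + δ ^ 2) ^ 2 * (1 + Real.log (1 + ‖c‖ ^ 2))) ≤
      ENNReal.ofReal K := by
  have hint : Integrable (fun c : ℂ => 2 * ((1 : ℝ) + ‖c‖ ^ 2) ^ (-(3 : ℝ) / 2)) :=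
    (integrable_rpow_neg_one_add_norm_sq (by
      rw [Complex.finrank_real_complex]
      norm_num)).const_mul 2
  refine ⟨∫ c : ℂ, 2 * ((1 : ℝ) + ‖c‖ ^ 2) ^ (-(3 : ℝ) / 2),
    integral_nonneg fun c => by positivity, ?_⟩
  intro δ hδ hδ1
  have hmeas : Measurable fun c : ℂ =>
      ENNReal.ofReal (δ ^ 2 / (‖c‖ ^ 2 + δ ^ 2) ^ 2 * (1 + Real.log (1 + ‖c‖ ^ 2))) := by
    fun_prop
  have hmeas2 : Measurable fun c : ℂ => ENNReal.ofReal (δ ^ 2 / (‖δ • c‖ ^ 2 + δ ^ 2) ^ 2 *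
      (1 + Real.log (1 + ‖δ • c‖ ^ 2))) := hmeas.comp (measurable_const_smul δ)
  rw [scaleC δ hδ _ hmeas, ← lintegral_const_mul _ hmeas2,
    ofReal_integral_eq_lintegral_ofReal hint (Filter.Eventually.of_forall fun c => by positivity)]
  refine lintegral_mono fun c => ?_
  rw [← ENNReal.ofReal_mul (by positivity)]
  refine ENNReal.ofReal_le_ofReal ?_
  have h1 : ‖δ • c‖ ^ 2 = δ ^ 2 * ‖c‖ ^ 2 := by
    rw [norm_smul, mul_pow, Real.norm_eq_abs, sq_abs]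
  rw [h1]
  have hc : 0 ≤ ‖c‖ ^ 2 := sq_nonneg _
  have h2 : δ ^ 2 * (δ ^ 2 / (δ ^ 2 * ‖c‖ ^ 2 + δ ^ 2) ^ 2 *
      (1 + Real.log (1 + δ ^ 2 * ‖c‖ ^ 2))) =
      (1 + Real.log (1 + δ ^ 2 * ‖c‖ ^ 2)) / (1 + ‖c‖ ^ 2) ^ 2 := by
    have h3 : δ ^ 2 * ‖c‖ ^ 2 + δ ^ 2 = δ ^ 2 * (1 + ‖c‖ ^ 2) := by ring
    rw [h3]
    have h4 : (1 + ‖c‖ ^ 2) ≠ 0 := by positivity
    field_simp
  rw [h2]
  refine le_trans ?_ (out_pt (1 + ‖c‖ ^ 2) (by linarith))
  refine div_le_div_of_nonneg_right ?_ (by positivity)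
  have h5 : δ ^ 2 * ‖c‖ ^ 2 ≤ ‖c‖ ^ 2 := by
    have : δ ^ 2 ≤ 1 := pow_le_one₀ hδ.le hδ1
    nlinarith
  have h6 : Real.log (1 + δ ^ 2 * ‖c‖ ^ 2) ≤ Real.log (1 + ‖c‖ ^ 2) :=
    Real.log_le_log (by positivity) (by linarith)
  linarith

/-! ### Gaussians -/

theorem nsq_nn {k : ℕ} (w : Fin k → ℂ) : 0 ≤ nsq w :=
  Finset.sum_nonneg fun _ _ => sq_nonneg _

theorem gauss0 (k : ℕ) : Integrable (fun w : Fin k → ℂ => Real.exp (-nsq w)) := by
  have := Pool.Agent.H95.EHD.gauss_int k (c := 1) one_pos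
  simpa using this

theorem gauss1 (k : ℕ) :
    Integrable (fun w : Fin k → ℂ => Real.exp (-nsq w) * Real.log (1 + nsq w)) := by
  have h1 := Pool.Agent.H95.EHD.gauss_int k (c := 1 / 2) (by norm_num)
  refine h1.mono' ?_ (Filter.Eventually.of_forall fun w => ?_)
  · have hc : Continuous (nsq : (Fin k → ℂ) → ℝ) := by
      unfold nsq
      fun_prop
    exact ((Real.continuous_exp.comp hc.neg).measurable.mul
      (Real.measurable_log.comp (continuous_const.add hc).measurable)).aestronglyMeasurable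
  · have hx := nsq_nn w
    generalize nsq w = x at hx
    have h2 : 0 ≤ Real.log (1 + x) := Real.log_nonneg (by linarith)
    have h3 : Real.log (1 + x) ≤ x := by
      have := Real.log_le_sub_one_of_pos (show 0 < 1 + x by linarith)
      linarith
    rw [Real.norm_eq_abs, abs_of_nonneg (mul_nonneg (Real.exp_pos _).le h2)]
    have h4 : x ≤ Real.exp (x / 2) := by
      have h5 := Real.add_one_le_exp (x / 2 - 1)
      have h6 : Real.exp (x / 2) = Real.exp 1 * Real.exp (x / 2 - 1) := by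
        rw [← Real.exp_add]
        congr 1
        ring
      have h7 : (2 : ℝ) ≤ Real.exp 1 := by
        have := Real.add_one_le_exp (1 : ℝ)
        linarith
      rw [h6]
      nlinarith [Real.exp_pos (x / 2 - 1)]
    calc Real.exp (-x) * Real.log (1 + x) ≤ Real.exp (-x) * Real.exp (x / 2) :=
          mul_le_mul_of_nonneg_left (h3.trans h4) (Real.exp_pos _).le
      _ = Real.exp (-(1 / 2 * x)) := by
          rw [← Real.exp_add]
          congr 1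
          ring

/-! ### The function -/

theorem nsq_ct {k : ℕ} (c : ℂ) (w : Fin k → ℂ) : nsq (ct c w) = ‖c‖ ^ 2 + nsq w := by
  unfold nsq ct
  rw [Fin.sum_univ_succ]
  simp

theorem nsq_pos_of {N : ℕ} {z : Fin N → ℂ} (hz : z ≠ 0) : 0 < nsq z := by
  unfold nsq
  obtain ⟨i, hi⟩ : ∃ i, z i ≠ 0 := by
    by_contra hcon
    push Not at hcon
    exact hz (funext hcon)
  refine lt_of_lt_of_le (pow_pos (norm_pos_iff.2 hi) 2)
    (Finset.single_le_sum (f := fun i => ‖z i‖ ^ 2) (fun _ _ => sq_nonneg _)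
    (Finset.mem_univ i))

/-- The shifted logarithm. -/
noncomputable def fb {N : ℕ} (P : MvPolynomial (Fin N) ℂ) (M : ℕ) (b r : ℝ)
    (z : Fin N → ℂ) : ℝ := b + -(1 / 2) * Real.log (nv P M z ^ 2 + r ^ 2)

theorem nv_meas {N : ℕ} (P : MvPolynomial (Fin N) ℂ) (M : ℕ) : Measurable (nv P M) := by
  have h1 : Measurable (nrm : (Fin N → ℂ) → ℝ) := by
    have hc : Continuous (nsq : (Fin N → ℂ) → ℝ) := by
      unfold nsq
      fun_prop
    exact (Real.continuous_sqrt.comp hc).measurable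
  exact (MvPolynomial.continuous_eval P).norm.measurable.div (h1.pow_const M)

theorem nv_cont {N : ℕ} (P : MvPolynomial (Fin N) ℂ) (M : ℕ) :
    ContinuousOn (nv P M) {0}ᶜ := by
  have h1 : Continuous (nrm : (Fin N → ℂ) → ℝ) := by
    have hc : Continuous (nsq : (Fin N → ℂ) → ℝ) := by
      unfold nsq
      fun_prop
    exact Real.continuous_sqrt.comp hc
  refine ContinuousOn.div (MvPolynomial.continuous_eval P).norm.continuousOn
    (h1.pow M).continuousOn fun z hz => ?_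
  have h2 : 0 < nsq z := nsq_pos_of hz
  exact (pow_pos (Real.sqrt_pos.mpr h2) M).ne'

theorem nv_hom {N M : ℕ} (P : MvPolynomial (Fin N) ℂ) (hP : P.IsHomogeneous M) (r : ℝ)
    (hr : 0 < r) (z : Fin N → ℂ) : nv P M ((r : ℂ) • z) = nv P M z := by
  unfold nv
  have h1 : nrm ((r : ℂ) • z) = r * nrm z := by
    unfold nrm
    have h2 : nsq ((r : ℂ) • z) = r ^ 2 * nsq z := by
      unfold nsq
      rw [Finset.mul_sum]
      refine Finset.sum_congr rfl fun i _ => ?_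
      rw [Pi.smul_apply, smul_eq_mul, norm_mul, mul_pow, Complex.norm_real, Real.norm_eq_abs,
        sq_abs]
    rw [h2, Real.sqrt_mul (by positivity), Real.sqrt_sq hr.le]
  rw [h1, eval_smul_hom hP, norm_mul, norm_pow, Complex.norm_real, Real.norm_eq_abs,
    abs_of_pos hr, mul_pow, mul_div_mul_left _ _ (pow_pos hr M).ne']

theorem nv_bdd (l6 : T_L6) {N M : ℕ} (P : MvPolynomial (Fin N) ℂ) (hP : P.IsHomogeneous M) :
    ∃ b : ℝ, 0 ≤ b ∧ ∀ (r : ℝ) (z : Fin N → ℂ), 0 < r → r ≤ 1 → z ≠ 0 → 0 ≤ fb P M b r z := by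
  obtain ⟨B, hB, hb⟩ := (l6 N).1 (nv P M) (nv_cont P M) fun r z hr _ => nv_hom P hP r hr z
  refine ⟨1 / 2 * Real.log (B ^ 2 + 1), ?_, ?_⟩
  · have : 0 ≤ Real.log (B ^ 2 + 1) := Real.log_nonneg (by nlinarith [sq_nonneg B])
    positivity
  · intro r z hr hr1 hz
    unfold fb
    have h1 := hb z hz
    have h2 : nv P M z ^ 2 ≤ B ^ 2 := by
      rw [← sq_abs]
      exact pow_le_pow_left₀ (abs_nonneg _) h1 2
    have h3 : r ^ 2 ≤ 1 := pow_le_one₀ hr.le hr1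
    have h4 : Real.log (nv P M z ^ 2 + r ^ 2) ≤ Real.log (B ^ 2 + 1) :=
      Real.log_le_log (by positivity) (by linarith)
    linarith

theorem fb_le {k M : ℕ} (P : MvPolynomial (Fin (k + 1)) ℂ) (b r : ℝ)
    (c : ℂ) (w : Fin k → ℂ) (hM : 1 ≤ M) (hP : P.IsHomogeneous M)
    (hne : MvPolynomial.eval (ct c w) P ≠ 0) :
    ct c w ≠ 0 ∧ fb P M b r (ct c w) ≤ b + M / 2 * Real.log (1 + ‖c‖ ^ 2) +
      M / 2 * Real.log (1 + nsq w) - Real.log ‖MvPolynomial.eval (ct c w) P‖ := by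
  have hz : ct c w ≠ 0 := by
    intro h
    apply hne
    have h1 := eval_smul_hom hP 0 (ct c w)
    rw [zero_smul, zero_pow (by omega), zero_mul] at h1
    rw [h]
    exact h1
  refine ⟨hz, ?_⟩
  have hn : 0 < nsq (ct c w) := nsq_pos_of hz
  have hE : 0 < ‖MvPolynomial.eval (ct c w) P‖ := norm_pos_iff.mpr hne
  have hnr : 0 < nrm (ct c w) := Real.sqrt_pos.mpr hn
  have hnv : 0 < nv P M (ct c w) := div_pos hE (pow_pos hnr M)
  have h1 : Real.log (nv P M (ct c w)) =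
      Real.log ‖MvPolynomial.eval (ct c w) P‖ - M * (1 / 2 * Real.log (nsq (ct c w))) := by
    unfold nv
    rw [Real.log_div hE.ne' (pow_pos hnr M).ne', Real.log_pow]
    unfold nrm
    rw [Real.log_sqrt hn.le]
    ring
  have h2 : 2 * Real.log (nv P M (ct c w)) ≤ Real.log (nv P M (ct c w) ^ 2 + r ^ 2) := by
    have : Real.log (nv P M (ct c w) ^ 2) ≤ Real.log (nv P M (ct c w) ^ 2 + r ^ 2) :=
      Real.log_le_log (by positivity) (by nlinarith [sq_nonneg r])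
    rw [Real.log_pow] at this
    exact_mod_cast this
  have h3 : Real.log (nsq (ct c w)) ≤ Real.log (1 + ‖c‖ ^ 2) + Real.log (1 + nsq w) := by
    have hw := nsq_nn w
    rw [← Real.log_mul (by positivity) (by positivity)]
    refine Real.log_le_log hn ?_
    rw [nsq_ct]
    nlinarith [sq_nonneg ‖c‖, mul_nonneg (sq_nonneg ‖c‖) hw]
  have hM0 : (0 : ℝ) ≤ M := Nat.cast_nonneg M
  have h4 : (M : ℝ) * (1 / 2 * Real.log (nsq (ct c w))) ≤
      M / 2 * Real.log (1 + ‖c‖ ^ 2) + M / 2 * Real.log (1 + nsq w) := by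
    nlinarith
  unfold fb
  linarith

/-! ### The inner integral -/

theorem inner_int (h2 : T_EG2) {k M : ℕ} (P : MvPolynomial (Fin (k + 1)) ℂ)
    (hP : P.IsHomogeneous M) (hM : 1 ≤ M) (hX : ¬ MvPolynomial.X 0 ∣ P) (b : ℝ) (hb0 : 0 ≤ b)
    (hb : ∀ (r : ℝ) (z : Fin (k + 1) → ℂ), 0 < r → r ≤ 1 → z ≠ 0 → 0 ≤ fb P M b r z) :
    ∃ K : ℝ, 0 ≤ K ∧ ∀ (r ρ : ℝ) (c : ℂ), 0 < r → r ≤ 1 → 0 ≤ ρ →
      ∫⁻ w : Fin k → ℂ, ENNReal.ofReal (fb P M b r (ct c w) * (ρ * Real.exp (-nsq w))) ≤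
        ENNReal.ofReal (K * (ρ * (1 + Real.log (1 + ‖c‖ ^ 2)))) := by
  obtain ⟨C, hC⟩ := h2 k M P hP hX
  set A0 : ℝ := ∫ w : Fin k → ℂ, Real.exp (-nsq w) with hA0
  set A1 : ℝ := ∫ w : Fin k → ℂ, Real.exp (-nsq w) * Real.log (1 + nsq w) with hA1
  have hA0n : 0 ≤ A0 := integral_nonneg fun w => (Real.exp_pos _).le
  have hA1n : 0 ≤ A1 := integral_nonneg fun w =>
    mul_nonneg (Real.exp_pos _).le (Real.log_nonneg (by linarith [nsq_nn w]))
  have hM0 : (0 : ℝ) ≤ M := Nat.cast_nonneg M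
  refine ⟨b * A0 + M / 2 * A0 + M / 2 * A1 + |C|, by positivity, ?_⟩
  intro r ρ c hr hr1 hρ
  set L : ℝ := Real.log (1 + ‖c‖ ^ 2) with hL
  have hL0 : 0 ≤ L := Real.log_nonneg (by nlinarith [sq_nonneg ‖c‖])
  set G : (Fin k → ℂ) → ℝ := fun w => (b + M / 2 * L) * Real.exp (-nsq w) +
    M / 2 * (Real.exp (-nsq w) * Real.log (1 + nsq w)) -
    Real.exp (-nsq w) * Real.log ‖MvPolynomial.eval (ct c w) P‖ with hG
  have i1 : Integrable fun w : Fin k → ℂ => (b + M / 2 * L) * Real.exp (-nsq w) :=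
    (gauss0 k).const_mul _
  have i2 : Integrable fun w : Fin k → ℂ =>
    (M : ℝ) / 2 * (Real.exp (-nsq w) * Real.log (1 + nsq w)) := (gauss1 k).const_mul _
  have i12 : Integrable fun w : Fin k → ℂ => (b + M / 2 * L) * Real.exp (-nsq w) +
    M / 2 * (Real.exp (-nsq w) * Real.log (1 + nsq w)) := i1.add i2
  have hGint : Integrable G := i12.sub (hC c).1
  have hGval : ∫ w, G w ≤ (b * A0 + M / 2 * A0 + M / 2 * A1 + |C|) * (1 + L) := by
    have h3 : ∫ w, G w = (b + M / 2 * L) * A0 + M / 2 * A1 -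
        ∫ w : Fin k → ℂ, Real.exp (-nsq w) * Real.log ‖MvPolynomial.eval (ct c w) P‖ := by
      have h9 := integral_sub i12 (hC c).1
      have h10 := integral_add i1 i2
      rw [integral_const_mul, integral_const_mul] at h10
      rw [h10] at h9
      exact h9
    rw [h3]
    have h4 := (hC c).2
    have h5 : C ≤ |C| := le_abs_self C
    have h6 : 0 ≤ |C| := abs_nonneg C
    have e1 : 0 ≤ b * A0 * L := mul_nonneg (mul_nonneg hb0 hA0n) hL0
    have e2 : 0 ≤ M / 2 * A0 := by positivity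
    have e3 : 0 ≤ M / 2 * A1 * L := mul_nonneg (by positivity) hL0
    have e4 : 0 ≤ |C| * L := mul_nonneg h6 hL0
    nlinarith
  have hae : ∀ᵐ w : Fin k → ℂ, MvPolynomial.eval (ct c w) P ≠ 0 := by
    filter_upwards [ae_fin k (Rc P c) (Rc_ne P hP hX c)] with w hw
    rwa [eval_Rc] at hw
  have hle : ∀ᵐ w : Fin k → ℂ,
      0 ≤ fb P M b r (ct c w) * Real.exp (-nsq w) ∧
      fb P M b r (ct c w) * Real.exp (-nsq w) ≤ G w := by
    filter_upwards [hae] with w hw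
    obtain ⟨hz, h3⟩ := fb_le P b r c w hM hP hw
    have h4 := Real.exp_pos (-nsq w)
    refine ⟨mul_nonneg (hb r _ hr hr1 hz) h4.le, ?_⟩
    have h5 := mul_le_mul_of_nonneg_right h3 h4.le
    refine h5.trans (le_of_eq ?_)
    rw [hG]
    ring
  calc ∫⁻ w : Fin k → ℂ, ENNReal.ofReal (fb P M b r (ct c w) * (ρ * Real.exp (-nsq w)))
      ≤ ∫⁻ w : Fin k → ℂ, ENNReal.ofReal (ρ * G w) := by
        refine lintegral_mono_ae ?_
        filter_upwards [hle] with w hw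
        refine ENNReal.ofReal_le_ofReal ?_
        have := mul_le_mul_of_nonneg_left hw.2 hρ
        linarith
    _ = ENNReal.ofReal (∫ w, ρ * G w) := by
        rw [ofReal_integral_eq_lintegral_ofReal (hGint.const_mul ρ)]
        filter_upwards [hle] with w hw
        exact mul_nonneg hρ (hw.1.trans hw.2)
    _ ≤ _ := by
        refine ENNReal.ofReal_le_ofReal ?_
        rw [integral_const_mul]
        have := mul_le_mul_of_nonneg_left hGval hρ
        linarith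

/-! ### The density on the shell -/

theorem hH_le {k : ℕ} (δ : ℝ) (hδ : 0 < δ) (z : Fin (k + 1 + 1) → ℂ) (hz : z ≠ 0)
    (h0 : 0 ≤ ell z) (h1 : ell z < 1) :
    hH (k := k) δ z ≤ (Real.exp 2 ^ 2 * Real.exp (Real.exp 2)) *
      (δ ^ 2 / (‖z 0‖ ^ 2 + δ ^ 2) ^ 2 * Real.exp (-nsq (tl z))) := by
  have hn : 0 < nsq z := nsq_pos_of hz
  unfold ell at h0 h1
  have hn1 : 1 ≤ nsq z := by
    rw [← Real.log_nonneg_iff hn]
    linarith
  have hn2 : nsq z ≤ Real.exp 2 := by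
    rw [← Real.log_le_iff_le_exp hn]
    linarith
  have hE1 : 1 ≤ Real.exp 2 := Real.one_le_exp (by norm_num)
  have htl : nsq (tl z) ≤ nsq z := by
    unfold nsq tl
    rw [Fin.sum_univ_succ (f := fun i => ‖z i‖ ^ 2)]
    have : 0 ≤ ‖z 0‖ ^ 2 := sq_nonneg _
    linarith
  have hexp : 1 ≤ Real.exp (Real.exp 2) * Real.exp (-nsq (tl z)) := by
    rw [← Real.exp_add]
    exact Real.one_le_exp (by linarith)
  have hz0 : 0 ≤ ‖z 0‖ ^ 2 := sq_nonneg _
  have hδ2 : 0 < δ ^ 2 := by positivity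
  have hden : (‖z 0‖ ^ 2 + δ ^ 2) / Real.exp 2 ≤ ‖z 0‖ ^ 2 / nsq z + δ ^ 2 := by
    rw [add_div]
    refine add_le_add (div_le_div_of_nonneg_left hz0 hn hn2) ?_
    exact div_le_self hδ2.le hE1
  have hA : δ ^ 2 / (‖z 0‖ ^ 2 / nsq z + δ ^ 2) ^ 2 ≤
      Real.exp 2 ^ 2 * (δ ^ 2 / (‖z 0‖ ^ 2 + δ ^ 2) ^ 2) := by
    have h3 : 0 < (‖z 0‖ ^ 2 + δ ^ 2) / Real.exp 2 := by positivity
    have h4 := pow_le_pow_left₀ h3.le hden 2
    calc δ ^ 2 / (‖z 0‖ ^ 2 / nsq z + δ ^ 2) ^ 2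
        ≤ δ ^ 2 / ((‖z 0‖ ^ 2 + δ ^ 2) / Real.exp 2) ^ 2 :=
          div_le_div_of_nonneg_left hδ2.le (by positivity) h4
      _ = Real.exp 2 ^ 2 * (δ ^ 2 / (‖z 0‖ ^ 2 + δ ^ 2) ^ 2) := by
          field_simp
  have hB : hH (k := k) δ z ≤ δ ^ 2 / (‖z 0‖ ^ 2 / nsq z + δ ^ 2) ^ 2 := by
    unfold hH
    exact div_le_self (by positivity) (one_le_pow₀ hn1)
  have hR : 0 ≤ Real.exp 2 ^ 2 * (δ ^ 2 / (‖z 0‖ ^ 2 + δ ^ 2) ^ 2) := by positivity
  calc hH (k := k) δ z ≤ Real.exp 2 ^ 2 * (δ ^ 2 / (‖z 0‖ ^ 2 + δ ^ 2) ^ 2) := hB.trans hA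
    _ = Real.exp 2 ^ 2 * (δ ^ 2 / (‖z 0‖ ^ 2 + δ ^ 2) ^ 2) * 1 := by rw [mul_one]
    _ ≤ Real.exp 2 ^ 2 * (δ ^ 2 / (‖z 0‖ ^ 2 + δ ^ 2) ^ 2) *
        (Real.exp (Real.exp 2) * Real.exp (-nsq (tl z))) := mul_le_mul_of_nonneg_left hexp hR
    _ = _ := by ring

theorem pf_EPG (h2 : T_EG2) (h3 : T_EA3) (p1 : T_P1) (_p3 : T_P3) (_s5 : T_S5) (l6 : T_L6) :
    T_EPG := by
  intro k M P hP hM hX
  obtain ⟨b, hb0, hb⟩ := nv_bdd l6 P hP
  obtain ⟨K1, hK1, hin⟩ := inner_int h2 P hP hM hX b hb0 hb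
  obtain ⟨K2, hK2, hout⟩ := outer_int
  obtain ⟨c0, C0, hc0, hC0, hEA⟩ := h3 k
  set E : ℝ := Real.exp 2 ^ 2 * Real.exp (Real.exp 2) with hE
  have hE0 : 0 < E := by positivity
  refine ⟨C0 * E * (K1 * K2), ?_⟩
  intro δ r hδ hδ1 hr hr1
  obtain ⟨hproj, hq⟩ := hEA δ hδ hδ1
  set q : (Fin (k + 1 + 1) → ℂ) → ℝ := fun z =>
    Q (tauH (k := k) δ) (fun _ : Fin 0 => ell) z with hqdef
  set Sh : Set (Fin (k + 1 + 1) → ℂ) := {z | 0 ≤ ell z ∧ ell z < 1} with hSh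
  have hShm : MeasurableSet Sh := by
    have hme : Measurable (ell : (Fin (k + 1 + 1) → ℂ) → ℝ) := Pool.Agent.H26.EHD.EA4.meas_ell
    exact (measurableSet_le measurable_const hme).inter (measurableSet_lt hme measurable_const)
  have hHnn : ∀ z : Fin (k + 1 + 1) → ℂ, 0 ≤ hH (k := k) δ z := by
    intro z
    unfold hH
    have := nsq_nn z
    positivity
  have hq0 : ∀ z, z ≠ 0 → 0 ≤ q z := fun z hz =>
    (mul_nonneg hc0.le (hHnn z)).trans (hq z hz).1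
  -- continuity and integrability
  have hcont1 : ContinuousOn (fun z => -(1 / 2) * Real.log (nv P M z ^ 2 + r ^ 2))
      ({0}ᶜ : Set (Fin (k + 1 + 1) → ℂ)) := by
    refine continuousOn_const.mul (ContinuousOn.log ?_ ?_)
    · exact ((nv_cont P M).pow 2).add continuousOn_const
    · intro z _
      positivity
  have hcont2 : ContinuousOn (fb P M b r) ({0}ᶜ : Set (Fin (k + 1 + 1) → ℂ)) :=
    continuousOn_const.add hcont1
  have hP1 := p1 (k + 1 + 1) (k + 1) 0 (tauH (k := k) δ) (fun _ => ell) (fun j => j.elim0)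
    (by omega) hproj (fun j => j.elim0)
  have hi1 := hP1.2 _ hcont1
  have hi2 := hP1.2 _ hcont2
  have hz : ∀ᵐ z : Fin (k + 1 + 1) → ℂ, z ≠ 0 := by
    rw [ae_iff]
    simp
  have hae1 : ∀ᵐ z ∂(volume.restrict Sh), z ≠ 0 ∧ z ∈ Sh := by
    filter_upwards [ae_restrict_of_ae hz, ae_restrict_mem hShm] with z h4 h5
    exact ⟨h4, h5⟩
  -- the integral of the shifted function
  have hstep : pair (fun z => -(1 / 2) * Real.log (nv P M z ^ 2 + r ^ 2)) (tauH (k := k) δ)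
      (fun _ : Fin 0 => ell) ≤ ∫ z in Sh, fb P M b r z * q z := by
    unfold pair Iint
    refine integral_mono_ae hi1 hi2 ?_
    filter_upwards [hae1] with z h4
    have h5 := hq0 z h4.1
    show -(1 / 2) * Real.log (nv P M z ^ 2 + r ^ 2) * q z ≤ fb P M b r z * q z
    unfold fb
    nlinarith [mul_nonneg hb0 h5]
  refine hstep.trans ?_
  have hnn : 0 ≤ᵐ[volume.restrict Sh] fun z => fb P M b r z * q z := by
    filter_upwards [hae1] with z h4
    exact mul_nonneg (hb r z hr hr1 h4.1) (hq0 z h4.1)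
  rw [integral_eq_lintegral_of_nonneg_ae hnn hi2.aestronglyMeasurable]
  -- the density
  set Ψ : (Fin (k + 1 + 1) → ℂ) → ENNReal := fun z => ENNReal.ofReal (fb P M b r z *
    (δ ^ 2 / (‖z 0‖ ^ 2 + δ ^ 2) ^ 2 * Real.exp (-nsq (tl z)))) with hΨ
  have hΨm : Measurable Ψ := by
    have hf : Measurable (fb P M b r : (Fin (k + 1 + 1) → ℂ) → ℝ) := by
      unfold fb
      exact measurable_const.add (measurable_const.mul
        (Real.measurable_log.comp (((nv_meas P M).pow_const 2).add measurable_const)))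
    have hg : Measurable fun z : Fin (k + 1 + 1) → ℂ =>
        δ ^ 2 / (‖z 0‖ ^ 2 + δ ^ 2) ^ 2 * Real.exp (-nsq (tl z)) := by
      unfold nsq tl
      fun_prop
    exact (hf.mul hg).ennreal_ofReal
  have hshell : ∫⁻ z in Sh, ENNReal.ofReal (fb P M b r z * q z) ≤
      ENNReal.ofReal (C0 * E) * ∫⁻ z, Ψ z := by
    calc ∫⁻ z in Sh, ENNReal.ofReal (fb P M b r z * q z)
        ≤ ∫⁻ z in Sh, ENNReal.ofReal (C0 * E) * Ψ z := by
          refine lintegral_mono_ae ?_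
          filter_upwards [hae1] with z h4
          have h5 := (hq z h4.1).2
          have h6 := hH_le (k := k) δ hδ z h4.1 h4.2.1 h4.2.2
          have h7 := hb r z hr hr1 h4.1
          rw [hΨ, ← ENNReal.ofReal_mul (by positivity)]
          refine ENNReal.ofReal_le_ofReal ?_
          have h8 : q z ≤ C0 * (E * (δ ^ 2 / (‖z 0‖ ^ 2 + δ ^ 2) ^ 2 * Real.exp (-nsq (tl z)))) :=
            h5.trans (mul_le_mul_of_nonneg_left h6 hC0.le)
          calc fb P M b r z * q z ≤ fb P M b r z *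
                (C0 * (E * (δ ^ 2 / (‖z 0‖ ^ 2 + δ ^ 2) ^ 2 * Real.exp (-nsq (tl z))))) :=
                mul_le_mul_of_nonneg_left h8 h7
            _ = _ := by ring
      _ ≤ ∫⁻ z, ENNReal.ofReal (C0 * E) * Ψ z := setLIntegral_le_lintegral _ _
      _ = ENNReal.ofReal (C0 * E) * ∫⁻ z, Ψ z := lintegral_const_mul _ hΨm
  have hfub : ∫⁻ z, Ψ z ≤ ENNReal.ofReal (K1 * K2) := by
    rw [Pool.Agent.H26.EHD.EA4.lint_ct Ψ hΨm]
    calc ∫⁻ c : ℂ, ∫⁻ w : Fin (k + 1) → ℂ, Ψ (ct c w)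
        ≤ ∫⁻ c : ℂ, ENNReal.ofReal (K1) * ENNReal.ofReal
          (δ ^ 2 / (‖c‖ ^ 2 + δ ^ 2) ^ 2 * (1 + Real.log (1 + ‖c‖ ^ 2))) := by
          refine lintegral_mono fun c => ?_
          rw [← ENNReal.ofReal_mul hK1]
          exact hin r (δ ^ 2 / (‖c‖ ^ 2 + δ ^ 2) ^ 2) c hr hr1 (by positivity)
      _ = ENNReal.ofReal K1 * ∫⁻ c : ℂ, ENNReal.ofReal
          (δ ^ 2 / (‖c‖ ^ 2 + δ ^ 2) ^ 2 * (1 + Real.log (1 + ‖c‖ ^ 2))) := by
          rw [lintegral_const_mul]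
          fun_prop
      _ ≤ ENNReal.ofReal K1 * ENNReal.ofReal K2 := by
          gcongr
          exact hout δ hδ hδ1
      _ = ENNReal.ofReal (K1 * K2) := (ENNReal.ofReal_mul hK1).symm
  have hfin : ∫⁻ z in Sh, ENNReal.ofReal (fb P M b r z * q z) ≤
      ENNReal.ofReal (C0 * E * (K1 * K2)) := by
    refine hshell.trans ?_
    rw [ENNReal.ofReal_mul (by positivity : 0 ≤ C0 * E)]
    gcongr
  have hKK : 0 ≤ C0 * E * (K1 * K2) := by positivity
  calc (∫⁻ z in Sh, ENNReal.ofReal (fb P M b r z * q z)).toReal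
      ≤ (ENNReal.ofReal (C0 * E * (K1 * K2))).toReal :=
        ENNReal.toReal_mono ENNReal.ofReal_ne_top hfin
    _ = C0 * E * (K1 * K2) := ENNReal.toReal_ofReal hKK

end Pool.Agent.H20.EHD
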